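import Pool.Agent.MP_3ee8cb_gt.DL.Spec
import Pool.Agent.MP_3ee8cb_gt.DLH.Min

/-! The one sided derivative of the inner minimum. -/

namespace Pool.Agent.MP_3ee8cb_gt.DL

open DN (Dim dm)

variable [Dim]

open DN DZ DZH DLH Set Filter Topology Metric
open scoped RealInnerProductSpace

theorem sDAN : SDAN := by
  intro m lg b h hb z w α ρ hρ hint
  have c := h.had.c1
  have hg : ContDiff ℝ 1 fun r : (V × V) × V => ps ⟪lg (r.1.1, r.2), r.1.2⟫ := by
    have : ContDiff ℝ 1 fun r : (V × V) × V => ⟪lg (r.1.1, r.2), r.1.2⟫ :=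
      (c.comp (by fun_prop)).inner ℝ (by fun_prop)
    unfold ps
    fun_prop
  have cZ := (DNWI.Z_c1 h.ok 1).continuous
  have cl := c.continuous
  have hK : IsCompact ((fun η : V => (m.Z 1 (z, η)).1) '' closedBall 0 ρ) :=
    (isCompact_closedBall _ _).image (by fun_prop)
  obtain ⟨ξ₀, hξ₀⟩ : ∃ ξ₀ : V × V, ξ₀ = (m.R z α, -m.om z (m.R z α) w) := ⟨_, rfl⟩
  have v0 : m.ver (z, w) ξ₀ = 0 := by simp [hξ₀, MF.ver]
  have h0 : m.hor (z, w) ξ₀ = α := by simp [hξ₀, MF.hor, h.ok.SR]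
  have uq : ∀ ξ, m.ver (z, w) ξ = 0 → m.hor (z, w) ξ = α → ξ = ξ₀ := fun ξ a1 a2 => by
    have e1 : m.R z α = ξ.1 := by rw [← a2]; simp [MF.hor, h.ok.RS]
    have e2 : ξ.2 = -m.om z ξ.1 w := by
      rw [eq_neg_iff_add_eq_zero]
      simpa [MF.ver] using a1
    rw [hξ₀, e1, ← e2]
  have k0 : ∀ y ∈ (fun η : V => (m.Z 1 (z, η)).1) '' closedBall 0 ρ,
      mn m ρ b (z, w) ≤ b y + ps ⟪lg (z, y), w⟫ := by
    rintro _ ⟨η, hη, rfl⟩
    rw [h.had.xe]
    exact mn_le h hb (z, w) (by simpa using hη)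
  obtain ⟨_, ⟨η, hη, rfl⟩, ey, hy⟩ := danskin hK hb hg (q₀ := (z, w)) k0 (by
    obtain ⟨η, a1, a2, -⟩ := mn_ex h hb hρ.le (z, w)
    refine ⟨_, ⟨η, by simpa using a1, rfl⟩, ?_⟩
    simp only [h.had.xe]
    exact a2.symm) ξ₀
  rw [g_der h z w _ ξ₀ v0, h0, h.had.xe] at hy
  simp only [h.had.xe] at ey
  have mi : ∀ η', Ph m b (z, w) η' ≤ mn m ρ b (z, w) →
      IsMinOn (FF m b (z, w)) (closedBall 0 ρ) η' := fun η' a η'' b =>
    a.trans (mn_le h hb (z, w) (by simpa using b))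
  refine ⟨η, hint η (by simpa using hη) (mi η ey.le), mi η ey.le, fun γ ξ q0 hq a1 a2 ε hε => ?_⟩
  obtain rfl := uq ξ a1 a2
  obtain ⟨d, hd⟩ : ∃ d, d = ⟪(1 + ⟪η, w⟫) • DZH.DL m lg (m.Z 1 (z, η)).1 z w, α⟫ := ⟨_, rfl⟩
  rw [← hd] at hy
  have tb := (isCompact_closedBall (0 : V) ρ).eventually_forall_of_forall_eventually
    (x₀ := (0 : ℝ)) (P := fun s η' => ‖lg (z, (m.Z 1 ((γ s).1, η')).1)‖ < ρ ∨
      mn m ρ b (z, w) + s * (d - ε) < Ph m b (γ s) η') fun η' hη' => by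
    have t0 : ContinuousAt (fun r : ℝ × V => γ r.1) (0, η') :=
      ContinuousAt.comp (f := Prod.fst) hq.continuousAt continuousAt_fst
    rcases lt_or_ge ‖η'‖ ρ with u | u
    · have t1 : ContinuousAt (fun r : ℝ × V => ‖lg (z, (m.Z 1 ((γ r.1).1, r.2)).1)‖) (0, η') :=
        ContinuousAt.comp (f := fun r : ℝ × V => (γ r.1, r.2)) (g := fun r : (V × V) × V =>
          ‖lg (z, (m.Z 1 (r.1.1, r.2)).1)‖) (Continuous.continuousAt (by fun_prop))
          (t0.prodMk continuousAt_snd)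
      exact (t1.eventually_lt continuousAt_const (by simpa [q0, h.had.xe] using u)).mono
        fun r hr => Or.inl hr
    · have t1 : ContinuousAt (fun r : ℝ × V => Ph m b (γ r.1) r.2) (0, η') :=
        ContinuousAt.comp (f := fun r : ℝ × V => (γ r.1, r.2)) (g := fun r : (V × V) × V =>
          Ph m b r.1 r.2) (Continuous.continuousAt (by unfold Ph ps; fun_prop))
          (t0.prodMk continuousAt_snd)
      have t2 : ContinuousAt (fun r : ℝ × V => mn m ρ b (z, w) + r.1 * (d - ε)) (0, η') := by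
        fun_prop
      refine (t2.eventually_lt t1 ?_).mono fun r hr => Or.inr hr
      simp only [q0, zero_mul, add_zero]
      exact not_le.1 fun a => (hint η' (by simpa using hη') (mi η' a)).not_ge u
  filter_upwards [hy γ hq q0 ε hε, tb.filter_mono nhdsWithin_le_nhds] with s b1 b2
  obtain ⟨η', c1, c2, -⟩ := mn_ex h hb hρ.le (γ s)
  have e : gm m ρ b (z, w) - s * (⟪-((1 + ⟪η, w⟫) • DZH.DL m lg (m.Z 1 (z, η)).1 z w), α⟫ + ε) =
      mn m ρ b (z, w) + s * (d - ε) := by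
    rw [inner_neg_left, ← hd]
    change mn m ρ b (z, w) - _ = _
    ring
  have e' : DZH.DL m lg (m.Z 1 (z, η)).1 z w = fderiv ℝ (fun y => lg (y, (m.Z 1 (z, η)).1)) z
      (m.R z w) + m.om z (m.R z w) η := by simp [DZH.DL, h.had.xe]
  rw [← e']
  refine (e.trans_le ?_).trans_eq c2.symm
  rcases b2 η' (by simpa using c1) with u | u
  · have := b1 _ ⟨_, by simpa using u.le, h.had.ex z _⟩
    simp only [h.had.xe] at this
    exact this
  · exact u.le

end Pool.Agent.MP_3ee8cb_gt.DL
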