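import Pool.Agent.MP_3ee8cb_gt.DL.Spec
import Pool.Agent.MP_3ee8cb_gt.DZ.REND1

/-! If almost every direction is touched, the feet of the fibre are one point. -/

namespace Pool.Agent.MP_3ee8cb_gt.DL

open Set Filter Topology MeasureTheory DN Real DZE DZ DZ.E1
open scoped RealInnerProductSpace

variable [Dim]

/-- A function on the sphere with quadratically small variation is constant. -/
theorem end_const {U : V → ℝ} {k : ℝ} (hk : 0 ≤ k)
    (h : ∀ w v, ‖w‖ = 1 → ‖v‖ = 1 → U w - k * ‖w - v‖ ^ 2 ≤ U v) {w v : V} (hw : ‖w‖ = 1)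
    (hv : ‖v‖ = 1) : U w = U v := by
  refine const (LipschitzOnWith.continuousOn (K := ⟨2 * k, by positivity⟩)
    (LipschitzOnWith.of_dist_le_mul fun a (ha : ‖a‖ = 1) b (hb : ‖b‖ = 1) => ?_))
    (fun w hw => ⟨fun v => U w - k * ‖v - w‖ ^ 2, flat_max ?_ fun v _ => ?_, by simp,
      fun v hv => ?_⟩) hw hv
  · have h1 := h a b ha hb
    have h2 := h b a hb ha
    have h3 : ‖a - b‖ ≤ 2 := (norm_sub_le a b).trans (by rw [ha, hb]; norm_num)
    rw [norm_sub_rev] at h2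
    rw [Real.dist_eq, dist_eq_norm, abs_le]
    have h4 := mul_le_mul_of_nonneg_left h3 (mul_nonneg hk (norm_nonneg (a - b)))
    change -(2 * k * ‖a - b‖) ≤ _ ∧ _ ≤ 2 * k * ‖a - b‖
    constructor <;> nlinarith
  · exact (((differentiableAt_id.sub_const w).norm_sq ℝ).const_mul k).const_sub _
  · have := mul_nonneg hk (sq_nonneg ‖v - w‖)
    simp only [sub_self, norm_zero]
    linarith
  · have := h w v hw hv
    rwa [norm_sub_rev] at this

theorem sEND1 : SEND1 := by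
  intro slb m lg dX P _ A bf ms bg ρ x z ρ0 ρ1 ae p₀ hp₀
  have : Nonempty P := ⟨p₀⟩
  have y := bf.yw
  have hK := bf.cpt x
  have lo : ∀ p w, ‖w‖ = 1 → A.β p z - 4 * ‖A.ν p z - w‖ ^ 2 ≤ gm m ρ (A.β p) (z, w) :=
    fun p w hw => by
      refine le_csInf ((Metric.nonempty_closedBall.2 ρ0.le).image _) (forall_mem_image.2
        fun η hη => ?_)
      have h1 := slb m lg _ _ y (bf.isb p) z w η hw ((mem_closedBall_zero_iff.1 hη).trans ρ1)
      nlinarith [sq_nonneg (‖η‖ / 2 - 2 * ‖A.ν p z - w‖)]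
  have c0 : Continuous fun q : P × V => A.β q.1 z :=
    bf.cont.comp (f := fun q : P × V => (q.1, z)) (by fun_prop)
  have c1 : Continuous fun q : P × V => A.β q.1 (m.Z 1 (z, q.2)).1 :=
    bf.cont.comp (f := fun q : P × V => (q.1, (m.Z 1 (z, q.2)).1)) (continuous_fst.prodMk
      (y.ok.cZ.continuous.comp (f := fun q : P × V => ((1 : ℝ), z, q.2)) (by fun_prop)).fst)
  have c3 : IsClosed ((⋂ r ∈ {p | A.pr p = x}, {q : P × V |
      A.β r z - 4 * ‖A.ν r z - q.2‖ ^ 2 ≤ A.β q.1 z}) ∩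
      {q | A.β q.1 (m.Z 1 (z, q.2)).1 = A.β q.1 z - 1}) :=
    (isClosed_biInter fun r _ => isClosed_le (by fun_prop) c0).inter
      (isClosed_eq c1 (c0.sub continuous_const))
  have al : ∀ w, ‖w‖ = 1 → ∃ p, A.pr p = x ∧ A.ν p z = w ∧
      ∀ r, A.pr r = x → A.β r z - 4 * ‖A.ν r z - w‖ ^ 2 ≤ A.β p z := fun w hw => by
    obtain ⟨p, h1, h2, h3⟩ := ms.den _ (closed_ex hK c3) (ae.mono fun w ⟨p, h1, h2, h3⟩ =>
      ⟨p, h1, mem_iInter₂.2 fun r hr => (lo r _ (h2 ▸ (bf.isb p).unit z)).trans (h3 r hr),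
        h2 ▸ (bf.isb p).ray z 1⟩) w hw
    exact ⟨p, h1, (bf.b1 p).eq z w hw h3.le, fun r hr => mem_iInter₂.1 h2 r hr⟩
  choose! q q1 q2 q3 using al
  have co : ∀ w v, ‖w‖ = 1 → ‖v‖ = 1 → A.β (q w) z = A.β (q v) z := fun w v hw hv =>
    end_const (U := fun w => A.β (q w) z) (k := 4) (by norm_num) (fun a b ha hb => by
      have := q3 b hb (q a) (q1 a ha)
      rwa [q2 a ha] at this) hw hv
  have val : ∀ p, A.pr p = x → A.β p z = A.β (q (A.ν p z)) z := fun p hp =>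
    bg.same _ _ z (hp.trans (q1 _ ((bf.isb p).unit z)).symm) (q2 _ ((bf.isb p).unit z)).symm
  have sm : ∀ p, A.pr p = x → ∀ r, A.pr r = x → A.β p z = A.β r z := fun p hp r hr => by
    rw [val p hp, val r hr]
    exact co _ _ ((bf.isb p).unit z) ((bf.isb r).unit z)
  have zero : ∀ p, A.pr p = x → A.β p z = 0 := fun p hp => by
    obtain ⟨r, r1, r2⟩ := bg.onto x z (-A.ν p z) (by rw [norm_neg, (bf.isb p).unit])
    have h1 : A.β p z + A.β r z ≤ 0 := le_of_forall_pos_le_add fun e he => by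
      obtain ⟨T, hT⟩ := (bf.gr p r (hp.trans r1.symm) e he).exists
      have h2 := opp y (bf.isb p) (bf.isb r) r2 (m.Z T (A.ft r, A.ν r (A.ft r))).1
      rw [(bf.isb r).ray, bf.foot] at h2
      linarith
    linarith [sm p hp r r1, sm p hp _ ((bf.flp p).1.trans hp), bg.opp p z]
  obtain ⟨f1, f2, f3⟩ := bf.flp p₀
  refine foot y (bf.isb p₀) (bf.isb (A.fl p₀)) f3 (by rw [zero p₀ hp₀, bf.foot]) ?_
  rw [zero _ (f1.trans hp₀), ← f2, bf.foot]

end Pool.Agent.MP_3ee8cb_gt.DL
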