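import Pool.Agent.MP_3ee8cb_gt.DL.Spec
import Pool.Agent.MP_3ee8cb_gt.DZ.RJA

/-! First order data of the zero of the averaged field, one direction at a time. -/

namespace Pool.Agent.MP_3ee8cb_gt.DL

open DN (Dim dm)

open Set Filter Topology MeasureTheory Metric DN DZ DZJ
open scoped RealInnerProductSpace

namespace JA

theorem touch {φ : ℝ → ℝ} {a d N : ℝ} (hφ : HasDerivAt φ a 0)
    (h : ∀ η : ℝ, 0 < η → ∀ᶠ s in 𝓝[>] (0 : ℝ), φ 0 - s * (d + η) - (N + η) * s ≤ φ (-s)) :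
    a ≤ d + N := by
  refine le_of_forall_pos_le_add fun η hη => ?_
  have h0 : HasDerivAt φ a (-0) := by rwa [neg_zero]
  have h1 := (h0.comp (0 : ℝ) (hasDerivAt_neg (0 : ℝ))).tendsto_slope_zero_right
  have h2 := ge_of_tendsto (b := -(d + N + η)) h1 (by
    filter_upwards [h (η / 2) (half_pos hη), self_mem_nhdsWithin] with s hs (s0 : 0 < s)
    simp only [Function.comp, zero_add, neg_zero, smul_eq_mul]
    rw [← div_eq_inv_mul, le_div_iff₀ s0]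
    linarith)
  linarith

variable [Dim]

theorem ana {m : MF} (ok : m.OK) (jc : m.Jac) (μ : Measure V) [IsFiniteMeasure μ]
    (ac : μ ≪ volume) (hμ : ∀ᵐ w ∂μ, 1 ≤ ‖w‖ ∧ ‖w‖ ≤ 2)
    (inv : ∀ T : V ≃ₗᵢ[ℝ] V, MeasurePreserving T μ μ) {d : V → V → ℝ} {N : V → V → ℝ}
    (hd : ∀ x e (η : ℝ), 0 < η → ∀ᶠ s in 𝓝 (0 : ℝ), d x (x + s • e) ≤ (N x e + η) * |s|)
    {u : V → V × V → ℝ} {F : V → V} (hF : LocallyLipschitz F)
    (hu : LocallyLipschitzOn {q | q.2 ≠ 0} fun q : V × V => u q.1 (F q.1, ‖q.2‖⁻¹ • q.2))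
    (mov : ∀ x x' (z : V × V), ‖z.2‖ = 1 → u x z - d x x' ≤ u x' z)
    (hz : ∀ x, ∫ w, u x (F x, ‖w‖⁻¹ • w) • ‖w‖⁻¹ • w ∂μ = 0) :
    ∀ᵐ x : V, DifferentiableAt ℝ F x ∧ ∃ l : V → V →L[ℝ] ℝ,
      (∀ e, Integrable (fun w => l w e • ‖w‖⁻¹ • w) μ ∧ ∫ w, l w e • ‖w‖⁻¹ • w ∂μ = 0) ∧
      ∀ᵐ w ∂μ, ∀ e k, Din m (u x) (F x, ‖w‖⁻¹ • w) (-m.S (F x) (fderiv ℝ F x e)) k →
        l w e ≤ k + N x e := by
  set f : V × V → ℝ := fun q => u q.1 (F q.1, ‖q.2‖⁻¹ • q.2) with hf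
  have r1 := D3LM.ae_diff (volume : Measure V) isOpen_univ hF.locallyLipschitzOn
  have r2 := Measure.ae_ae_of_ae_prod (D3LM.ae_diff ((volume : Measure V).prod volume)
    (isOpen_ne.preimage continuous_snd) hu)
  filter_upwards [r1, r2] with x h1 h2
  replace h1 := h1 (mem_univ x)
  have n0 : ∀ᵐ w ∂μ, w ≠ 0 := hμ.mono fun w hw => norm_pos_iff.1 (one_pos.trans_le hw.1)
  have h3 : ∀ᵐ w ∂μ, DifferentiableAt ℝ f (x, w) := by
    filter_upwards [ac.ae_le h2, n0] with w hw w0 using hw w0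
  have rot : ∀ e, ∃ O : ℝ → V ≃ₗᵢ[ℝ] V, (∀ a, O 0 a = a) ∧
      ∀ a, HasDerivAt (fun s => O s a) ((-m.om (F x) (fderiv ℝ F x e)) a) 0 := fun e => by
    obtain ⟨O, o0, -, o1⟩ := jc.par (F x, m.S (F x) (fderiv ℝ F x e))
    refine ⟨O, o0, fun a => ?_⟩
    have := o1 a 0
    rwa [o0, MF.w, ok.zero, ok.RS] at this
  obtain ⟨l, hl⟩ : ∃ l : V → V →L[ℝ] ℝ, ∀ w e,
      l w e = fderiv ℝ f (x, w) (e, (-m.om (F x) (fderiv ℝ F x e)) w) :=
    ⟨fun w => (fderiv ℝ f (x, w)).comp ((ContinuousLinearMap.id ℝ V).prod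
      (-((m.om (F x)).flip w).comp (fderiv ℝ F x))), fun w e => by simp⟩
  refine ⟨h1, l, fun e => ?_, ?_⟩
  · obtain ⟨O, o0, o1⟩ := rot e
    simp only [hl]
    exact dom (f := f) hu x e μ hμ inv o0 o1 (fun y => hz y) h3
  filter_upwards [h3, n0] with w hw w0 e k hΦ
  obtain ⟨O, o0, o1⟩ := rot e
  have c1 : HasFDerivAt f (fderiv ℝ f (x, w)) (x + (0 : ℝ) • e, O 0 w) := by
    rw [zero_smul, add_zero, o0]
    exact hw.hasFDerivAt
  have c2 := c1.comp_hasDerivAt (0 : ℝ) (curve x e o1 w)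
  have c3 : HasDerivAt (fun s : ℝ => (F (x + s • e), O s (‖w‖⁻¹ • w)))
      (fderiv ℝ F x e, (-m.om (F x) (fderiv ℝ F x e)) (‖w‖⁻¹ • w)) (-0) := by
    have h4 : HasFDerivAt F (fderiv ℝ F x) (x + (0 : ℝ) • e) := by
      rw [zero_smul, add_zero]
      exact h1.hasFDerivAt
    have h5 := ((hasDerivAt_id (0 : ℝ)).smul_const e).const_add x
    rw [one_smul] at h5
    rw [neg_zero]
    exact (h4.comp_hasDerivAt (0 : ℝ) h5).prodMk (o1 _)
  have c4 := hΦ _ _ (by simp [o0]) (c3.scomp (0 : ℝ) (hasDerivAt_neg (0 : ℝ)))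
    (by simp [MF.ver]) (by simp [MF.hor])
  rw [hl]
  refine touch c2 fun η hη => ?_
  filter_upwards [c4 η hη, nhdsWithin_le_nhds ((continuous_neg.tendsto' (0 : ℝ) 0
    neg_zero).eventually (hd x e η hη)), self_mem_nhdsWithin] with s s1 s2 (s0 : 0 < s)
  have n1 : ‖O (-s) (‖w‖⁻¹ • w)‖ = 1 := by
    rw [LinearIsometryEquiv.norm_map]
    exact norm_smul_inv_norm (𝕜 := ℝ) w0
  have s3 := mov x (x + (-s) • e) (F (x + (-s) • e), O (-s) (‖w‖⁻¹ • w)) n1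
  rw [abs_neg, abs_of_pos s0] at s2
  simp only [hf, Function.comp, LinearIsometryEquiv.norm_map, ← map_smul, zero_smul, add_zero,
    o0] at s1 ⊢
  linarith

theorem lip {m₀ m : MF} {lg dX ε s u C C₀ Q} (xw : XW m₀ dX) (sp : Sup m lg dX ε s u C C₀ Q)
    {f : V → V} (hf : LocallyLipschitz f) :
    LocallyLipschitzOn {q | q.2 ≠ 0} fun q : V × V => u q.1 (f q.1) (un q.2) := by
  rintro ⟨x, w⟩ (w0 : w ≠ 0)
  obtain ⟨K, hK⟩ := sp.lipz x (‖f x‖ + 1)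
  obtain ⟨K1, t1, n1, h1⟩ := hf x
  obtain ⟨K2, t2, n2, h2⟩ : ∃ K, ∃ t ∈ 𝓝 w, LipschitzOnWith K un t :=
    (((contDiffAt_norm ℝ (n := 1) w0).inv (norm_ne_zero_iff.2 w0)).smul
      contDiffAt_id).exists_lipschitzOnWith
  have h3 := xw.upp x 1 one_pos
  rw [nhds_prod_eq] at h3
  obtain ⟨t3, n3, h3⟩ := (eventually_prod_self_iff
    (r := fun y z => dX y z ≤ (1 + 1) * ‖m₀.S x (z - y)‖)).1 h3
  have n4 : ∀ᶠ y in 𝓝 x, ‖f y‖ ≤ ‖f x‖ + 1 :=
    hf.continuous.norm.continuousAt.eventually_le_const (lt_add_one _)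
  have n5 : ∀ᶠ y in 𝓝 x, (1 + 1) * ‖m₀.S x (y - x)‖ ≤ 1 := by
    have c : Continuous fun y => (1 + 1) * ‖m₀.S x (y - x)‖ := by fun_prop
    exact c.continuousAt.eventually_le_const (by simp)
  refine ⟨K * (K1 + K2) + 2 * ‖m₀.S x‖₊, (t1 ∩ t3 ∩ {y | ‖f y‖ ≤ ‖f x‖ + 1} ∩
    {y | (1 + 1) * ‖m₀.S x (y - x)‖ ≤ 1}) ×ˢ (t2 ∩ {a | a ≠ 0}), nhdsWithin_le_nhds
      (prod_mem_nhds (inter_mem (inter_mem (inter_mem n1 n3) n4) n5)
        (inter_mem n2 (isOpen_ne.mem_nhds w0))), LipschitzOnWith.of_dist_le_mul ?_⟩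
  rintro ⟨y, a⟩ ⟨⟨⟨⟨y1, y3⟩, y4⟩, y5⟩, a2, a0⟩ ⟨z, b⟩ ⟨⟨⟨⟨z1, z3⟩, z4⟩, -⟩, b2, b0⟩
  have e1 := (hK y ((h3 x (mem_of_mem_nhds n3) y y3).trans y5)).dist_le_mul (f y, un a)
    ⟨y4, ja_un a0⟩ (f z, un b) ⟨z4, ja_un b0⟩
  have e2 := (sp.lipx y z (f z) (un b) (ja_un b0)).trans (h3 y y3 z z3)
  have e3 := h1.dist_le_mul y y1 z z1
  have e4 := h2.dist_le_mul a a2 b b2
  have e5 := (m₀.S x).le_opNorm (z - y)
  have d1 : dist y z ≤ dist (y, a) (z, b) := le_max_left _ _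
  have d2 : dist a b ≤ dist (y, a) (z, b) := le_max_right _ _
  have d0 : 0 ≤ dist (y, a) (z, b) := dist_nonneg
  have e6 : dist (f y, un a) (f z, un b) ≤ (K1 + K2) * dist (y, a) (z, b) := by
    have k1 := mul_le_mul_of_nonneg_left d1 K1.2
    have k2 := mul_le_mul_of_nonneg_left d2 K2.2
    have k3 := mul_nonneg K1.2 d0
    have k4 := mul_nonneg K2.2 d0
    simp only [NNReal.val_eq_coe] at k1 k2 k3 k4
    exact max_le (by linarith) (by linarith)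
  have e7 := mul_le_mul_of_nonneg_left e6 K.2
  have e8 := mul_le_mul_of_nonneg_left d1 (norm_nonneg (m₀.S x))
  rw [← dist_eq_norm, dist_comm] at e5
  rw [← Real.dist_eq] at e2
  have e9 := dist_triangle (u y (f y) (un a)) (u y (f z) (un b)) (u z (f z) (un b))
  simp only [NNReal.val_eq_coe] at e7
  push_cast
  simp only at e1 e2 ⊢
  nlinarith

end JA

variable [Dim]

theorem sJA : SJA := by
  intro m₀ m lg dX ε r u C C₀ Q ms xw yw _ _ r0 sp f zr hf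
  have := ms.fin
  have hd : ∀ (x e : V) (η : ℝ), 0 < η →
      ∀ᶠ s in 𝓝 (0 : ℝ), dX x (x + s • e) ≤ (‖m₀.S x e‖ + η) * |s| := fun x e η hη => by
    have p : 0 < ‖m₀.S x e‖ + 1 := by positivity
    have c : Continuous fun s : ℝ => (x, x + s • e) := by fun_prop
    have t := c.tendsto 0
    rw [zero_smul, add_zero] at t
    filter_upwards [t.eventually (xw.upp x _ (div_pos hη p))] with s hs
    rw [add_sub_cancel_left, map_smul, norm_smul, Real.norm_eq_abs, mul_comm |s|,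
      ← mul_assoc] at hs
    refine hs.trans (mul_le_mul_of_nonneg_right ?_ (abs_nonneg s))
    have : η / (‖m₀.S x e‖ + 1) * ‖m₀.S x e‖ ≤ η := by
      rw [div_mul_eq_mul_div, div_le_iff₀ p]
      nlinarith
    linarith
  filter_upwards [JA.ana yw.ok yw.jac mS ms.ac ms.mem ms.rot (N := fun x e => ‖m₀.S x e‖) hd
    (u := fun x z => u x z.1 z.2) hf (JA.lip xw sp hf) (fun x x' z hz => by
      have := (abs_le.1 (sp.lipx x x' z.1 z.2 hz)).2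
      linarith) zr.zero] with x ⟨h1, l, h2, h3⟩
  refine ⟨h1, fun w => (l w).comp (m₀.R x), fun T => ?_, ?_⟩
  · let b := stdOrthonormalBasis ℝ V
    have e : ∀ w, ((l w).comp (m₀.R x)) (T (un w)) =
        ∑ i, ⟪b i, l w (m₀.R x (T (b i))) • un w⟫ := fun w => by
      conv_lhs => rw [← b.sum_repr' (un w)]
      simp only [map_sum, map_smul, inner_smul_right, smul_eq_mul, mul_comm,
        ContinuousLinearMap.comp_apply]
    have i : ∀ i, Integrable (fun w => ⟪b i, l w (m₀.R x (T (b i))) • un w⟫) mS := fun i =>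
      (h2 _).1.const_inner _
    simp only [e]
    refine ⟨integrable_finsetSum _ fun j _ => i j, ?_⟩
    rw [integral_finsetSum _ fun j _ => i j]
    refine Finset.sum_eq_zero fun j _ => ?_
    have k := h2 (m₀.R x (T (b j)))
    exact (integral_inner k.1 _).trans (by rw [k.2, inner_zero_right])
  filter_upwards [h3, ms.mem] with w hw (w1 : 1 ≤ ‖w‖ ∧ ‖w‖ ≤ 2) e
  obtain ⟨c, ζ, k4, k5, -, k6, k7, k8⟩ := sp.tou x (f x) (un w) (-LL m₀ m f x e)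
    (sp.nest x x (by rw [xw.self]; exact r0.le) (zr.mem x))
    (ja_un (norm_pos_iff.1 (one_pos.trans_le w1.1)))
  refine ⟨c, ζ, k4, k5, k6, k7, ?_⟩
  have := hw (m₀.R x e) _ k8
  rw [xw.ok.SR, inner_neg_right] at this
  exact this.trans_eq (neg_add_eq_sub _ _)

end Pool.Agent.MP_3ee8cb_gt.DL
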