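import Pool.Agent.MP_3ee8cb_gt.DL.Spec
import Pool.Agent.MP_3ee8cb_gt.DLS.Mor

/-! The quadratic lower bound, and the slope at an interior minimum. -/

namespace Pool.Agent.MP_3ee8cb_gt.DL

open Set Filter Topology DN DZ Real
open scoped RealInnerProductSpace

namespace RLB

theorem exp3 {x : ℝ} (h : |x| ≤ 1) : |exp x - (1 + x + x ^ 2 / 2)| ≤ 2 / 9 * |x| ^ 3 := by
  have := exp_bound h (n := 3) (by norm_num)
  simp only [Finset.sum_range_succ, Finset.range_zero, Finset.sum_empty, Nat.factorial] at this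
  norm_num at this
  linarith

theorem core {L c : ℝ} (h0 : 0 ≤ L) (h1 : L ≤ 1 / 20) (hc : |c| ≤ 1) :
    exp (-(c * L) + (1 - c ^ 2) * L ^ 2 / 2 - 4 * L ^ 3) ≤ cosh L - c * sinh L := by
  obtain ⟨c1, c2⟩ := abs_le.1 hc
  have a1 := DLS.sq_le_cosh h0
  have a2 : L ≤ sinh L := self_le_sinh_iff.2 h0
  have a3 : sinh L ≤ L + L ^ 3 := by
    have b1 := (abs_le.1 (exp3 (x := L) (by rw [abs_of_nonneg h0]; linarith))).2
    have b2 := (abs_le.1 (exp3 (x := -L) (by rw [abs_neg, abs_of_nonneg h0]; linarith))).1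
    rw [abs_neg] at b2
    rw [abs_of_nonneg h0] at b1 b2
    rw [sinh_eq]
    nlinarith [pow_nonneg h0 3]
  have a4 : c * sinh L ≤ c * L + L ^ 3 := by nlinarith
  obtain ⟨e, he⟩ : ∃ e, e = (1 - c ^ 2) * L ^ 2 / 2 - 4 * L ^ 3 := ⟨_, rfl⟩
  have l2 := sq_nonneg L
  have l3 : L ^ 3 ≤ L ^ 2 / 20 := by nlinarith
  have l4 := pow_nonneg h0 3
  have c3 : c ^ 2 ≤ 1 := by nlinarith
  have e1 : |e| ≤ L ^ 2 / 2 := abs_le.2 ⟨by nlinarith, by nlinarith [sq_nonneg c]⟩
  have y1 : |-(c * L) + e| ≤ 2 * L := by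
    refine (abs_add_le _ _).trans ?_
    rw [abs_neg, abs_mul, abs_of_nonneg h0]
    nlinarith [mul_le_mul_of_nonneg_right hc h0]
  have y2 := pow_le_pow_left₀ (abs_nonneg _) y1 3
  have y3 := (abs_le.1 (exp3 (y1.trans (by linarith)))).2
  have y4 : -(c * L * e) ≤ L ^ 3 / 2 := by
    have := neg_abs_le (c * L * e)
    rw [abs_mul, abs_mul, abs_of_nonneg h0] at this
    have := mul_le_mul (mul_le_mul_of_nonneg_right hc h0) e1 (abs_nonneg _) (by linarith)
    nlinarith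
  have y5 : e ^ 2 ≤ L ^ 3 := by
    have := pow_le_pow_left₀ (abs_nonneg _) e1 2
    rw [sq_abs] at this
    nlinarith
  rw [add_sub_assoc, ← he]
  nlinarith

variable [Dim] {m : MF} {lg : V × V → V}

theorem ex_smul (y : YW m lg) (z v : V) (t : ℝ) : (m.Z 1 (z, t • v)).1 = (m.Z t (z, v)).1 := by
  rw [y.jac.scale, mul_one]

theorem ex_zero (y : YW m lg) (z : V) : (m.Z 1 (z, 0)).1 = z := by
  rw [← zero_smul ℝ (0 : V), ex_smul y, y.ok.zero]

end RLB

open RLB

variable [Dim]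

theorem sLB : SLB := by
  intro m lg b ν y h z w η hw hη
  by_cases h0 : η = 0
  · simp [FF, psi, h0, ex_zero y]
  have n0 := norm_ne_zero_iff.2 h0
  obtain ⟨v, hv, e⟩ : ∃ v : V, ‖v‖ = 1 ∧ η = ‖η‖ • v := ⟨‖η‖⁻¹ • η, norm_smul_inv_norm h0, by
    rw [smul_smul, mul_inv_cancel₀ n0, one_smul]⟩
  have L0 := norm_nonneg η
  generalize ‖η‖ = L at hη e L0
  subst e
  have c1 : |⟪ν z, v⟫| ≤ 1 :=
    (abs_real_inner_le_norm _ _).trans_eq (by rw [h.unit, hv, one_mul])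
  have c2 : |⟪w, v⟫| ≤ 1 := (abs_real_inner_le_norm _ _).trans_eq (by rw [hw, hv, one_mul])
  have c3 := abs_real_inner_le_norm (ν z - w) v
  rw [inner_sub_left, hv, mul_one] at c3
  have k := (mul_le_mul_of_nonneg_left (core L0 hη c1) (exp_pos (b z)).le).trans (h.lb z v L hv)
  rw [← exp_add, exp_le_exp] at k
  rw [FF, psi, ex_smul y, real_inner_smul_left, real_inner_comm]
  generalize ⟪ν z, v⟫ = c at c1 c3 k
  generalize ⟪w, v⟫ = a at c2 c3
  generalize ‖ν z - w‖ = σ at c3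
  have d1 : c ^ 2 - a ^ 2 ≤ 2 * σ := by
    have := le_abs_self ((c - a) * (c + a))
    rw [abs_mul] at this
    have h2 : |c + a| ≤ 2 := (abs_add_le _ _).trans (by linarith)
    have := mul_le_mul c3 h2 (abs_nonneg _) ((abs_nonneg _).trans c3)
    nlinarith
  have d2 := mul_le_mul_of_nonneg_left (abs_le.1 c3).2 L0
  have d3 := mul_le_mul_of_nonneg_left d1 (sq_nonneg L)
  have d4 : L ^ 2 * σ ≤ L * σ :=
    mul_le_mul_of_nonneg_right (by nlinarith) ((abs_nonneg _).trans c3)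
  have d5 : L ^ 3 ≤ L ^ 2 / 20 := by nlinarith [sq_nonneg L]
  nlinarith

theorem sPOS : SPOS := by
  intro m lg b ν y h z w η ρ hw hη hρ hm
  have sm : ∀ {x : ℝ}, (∀ t, 0 < t → t ≤ ρ - ‖η‖ → -t ≤ x) → 0 ≤ x := fun H =>
    le_of_forall_pos_le_add fun t ht => by
      have := H (min t (ρ - ‖η‖)) (lt_min ht (by linarith)) (min_le_right _ _)
      linarith [min_le_left t (ρ - ‖η‖)]
  constructor
  · refine sm fun t t0 t1 => ?_
    obtain ⟨o, ho⟩ : ∃ o, o = (m.Z 1 (z, η)).1 := ⟨_, rfl⟩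
    obtain ⟨q, hq⟩ : ∃ q, q = (m.Z t (o, ν o)).1 := ⟨_, rfl⟩
    have a1 := y.had.hinge z η (lg (z, q))
    rw [y.had.ex, ← ho, hq, ← ex_smul y, y.had.xe, norm_smul, h.unit, mul_one,
      norm_of_nonneg t0.le, ex_smul y, ← hq, norm_sub_rev] at a1
    have a2 : lg (z, q) ∈ Metric.closedBall (0 : V) ρ := by
      rw [mem_closedBall_zero_iff]
      linarith [norm_sub_norm_le (lg (z, q)) η]
    have a3 : FF m b (z, w) η ≤ FF m b (z, w) (lg (z, q)) := hm a2
    simp only [FF, psi, y.had.ex] at a3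
    rw [← ho, hq, h.ray, ← hq] at a3
    have a4 := (abs_real_inner_le_norm (lg (z, q) - η) w).trans
      (mul_le_mul_of_nonneg_right a1 (norm_nonneg w))
    rw [inner_sub_left, hw, mul_one] at a4
    have a5 := abs_real_inner_le_norm η w
    rw [hw, mul_one] at a5
    obtain ⟨a6, a7⟩ := abs_le.1 a4
    have a8 := (abs_le.1 a5).1
    have a9 := norm_nonneg η
    generalize ⟪lg (z, q), w⟫ = s' at a3 a6 a7
    generalize ⟪η, w⟫ = s at a3 a6 a7 a8 ⊢
    have b1 : (s' - s) * (1 + (s + s') / 2) ≤ t * (1 + (s + s') / 2) :=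
      mul_le_mul_of_nonneg_right a7 (by linarith)
    have b2 : t * 1 ≤ t * (1 + (s + s') / 2) := by nlinarith
    have b3 := le_of_mul_le_mul_left b2 t0
    linarith
  · rintro rfl
    have c1 : |⟪ν z, w⟫| ≤ 1 :=
      (abs_real_inner_le_norm _ _).trans_eq (by rw [h.unit, hw, one_mul])
    have c2 : 0 ≤ ⟪ν z, w⟫ - 1 := sm fun t t0 t1 => by
      have a2 : t • ν z ∈ Metric.closedBall (0 : V) ρ := by
        rw [mem_closedBall_zero_iff, norm_smul, h.unit, mul_one, norm_of_nonneg t0.le]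
        rwa [norm_zero, sub_zero] at t1
      have a3 : FF m b (z, w) 0 ≤ FF m b (z, w) (t • ν z) := hm a2
      simp only [FF, psi, ex_smul y, ex_zero y, h.ray, inner_zero_left,
        real_inner_smul_left] at a3
      have a4 : ⟪ν z, w⟫ ^ 2 ≤ 1 := by
        rw [← sq_abs]
        exact pow_le_one₀ (abs_nonneg _) c1
      have a5 := mul_le_mul_of_nonneg_left a4 (sq_nonneg t)
      refine le_of_mul_le_mul_left ?_ t0
      nlinarith [sq_nonneg t]
    exact (inner_eq_one_iff_of_norm_eq_one (𝕜 := ℝ) (h.unit z) hw).1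
      (le_antisymm (abs_le.1 c1).2 (by linarith))

end Pool.Agent.MP_3ee8cb_gt.DL
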