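import Pool.Agent.MP_3ee8cb_gt.DL.RNEAR

/-! The support function is Lipschitz in the point and the direction. -/

namespace Pool.Agent.MP_3ee8cb_gt.DL

open DN (Dim dm)

variable [Dim]

open Set Filter Topology Real DN DZ RNEAR
open scoped RealInnerProductSpace

namespace RLZ

theorem bd {m : MF} {lg : V × V → V} (y : YW m lg) (ρ R : ℝ) : ∃ K : NNReal,
    ∀ (q q' : V × V) (η : V), ‖q.1‖ ≤ R → ‖q.2‖ = 1 → ‖q'.1‖ ≤ R → ‖q'.2‖ = 1 → ‖η‖ ≤ ρ →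
      ‖lg ((m.Z 1 (q.1, η)).1, (m.Z 1 (q'.1, η)).1)‖ ≤ K * dist q q' ∧
        psi ⟪η, q.2⟫ - psi ⟪η, q'.2⟫ ≤ K * dist q q' := by
  have hz : ContDiff ℝ 1 (m.Z 1) := DNWI.Z_c1 y.ok 1
  have hl := y.had.c1
  have hi : ∀ f g : (V × V) × (V × V) × V → V, ContDiff ℝ 1 f → ContDiff ℝ 1 g →
      ContDiff ℝ 1 fun r => psi ⟪f r, g r⟫ := fun f g hf hg => by
    have := hf.inner ℝ hg
    unfold psi
    fun_prop
  have hc : ContDiff ℝ 1 fun r : (V × V) × (V × V) × V =>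
      (lg ((m.Z 1 (r.1.1, r.2.2)).1, (m.Z 1 (r.2.1.1, r.2.2)).1),
        psi ⟪r.2.2, r.1.2⟫ - psi ⟪r.2.2, r.2.1.2⟫) :=
    .prodMk (by fun_prop) ((hi _ _ (by fun_prop) (by fun_prop)).sub
      (hi _ _ (by fun_prop) (by fun_prop)))
  set B : Set (V × V) := Metric.closedBall 0 R ×ˢ Metric.closedBall 0 1
  have cB : IsCompact B := (isCompact_closedBall _ _).prod (isCompact_closedBall _ _)
  have vB : Convex ℝ B := (convex_closedBall _ _).prod (convex_closedBall _ _)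
  obtain ⟨K, hK⟩ := hc.contDiffOn.exists_lipschitzOnWith one_ne_zero
    (vB.prod (vB.prod (convex_closedBall 0 ρ))) (cB.prod (cB.prod (isCompact_closedBall 0 ρ)))
  refine ⟨K, fun q q' η h1 h2 h3 h4 h5 => ?_⟩
  have hq : q ∈ B := ⟨by simpa using h1, by simpa using h2.le⟩
  have hq' : q' ∈ B := ⟨by simpa using h3, by simpa using h4.le⟩
  have hη : η ∈ Metric.closedBall (0 : V) ρ := by simpa using h5
  have k := hK.dist_le_mul (q, q', η) ⟨hq, hq', hη⟩ (q, q, η) ⟨hq, hq, hη⟩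
  have e : dist (q, q', η) (q, q, η) = dist q q' := by
    rw [Prod.dist_eq, Prod.dist_eq (x := (q', η)), dist_self, dist_self, dist_comm]
    simp
  rw [e, Prod.dist_eq, max_le_iff, DNWI.lg_self y.ok y.jac y.had, sub_self, dist_zero_right,
    dist_zero_right] at k
  exact ⟨k.1, (le_abs_self _).trans k.2⟩

end RLZ

theorem sLZ : SLZ := by
  intro m lg dX P _ A h g ρ R h0
  obtain ⟨K, hK⟩ := RLZ.bd h.yw ρ R
  refine ⟨2 * K, fun x => LipschitzOnWith.of_le_add_mul _ fun q hq q' hq' => ?_⟩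
  obtain ⟨p, a1, a2⟩ := ex_max h g ρ x q.1 hq.2
  obtain ⟨η, b1, b2, -⟩ := DLH.mn_ex h.yw (DLH.cb h.yw (h.isb p)) h0.le q'
  have b3 : gm m ρ (A.β p) q ≤ FF m (A.β p) q η := DLH.mn_le h.yw (DLH.cb h.yw (h.isb p)) q b1
  have b4 : gm m ρ (A.β p) q' = FF m (A.β p) q' η := b2
  obtain ⟨c1, c2⟩ := hK q q' η hq.1 hq.2 hq'.1 hq'.2 b1
  have c3 := (h.isb p).lip (m.Z 1 (q.1, η)).1 (m.Z 1 (q'.1, η)).1
  have c4 := le_uu h ρ a1 q'
  rw [b4, FF] at c4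
  rw [FF] at b3
  push_cast
  linarith

end Pool.Agent.MP_3ee8cb_gt.DL
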