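import Pool.Agent.MP_3ee8cb_gt.DL.Spec
import Pool.Agent.MP_3ee8cb_gt.DLH.Min

/-! First order data of the inner minimum. -/

namespace Pool.Agent.MP_3ee8cb_gt.DL

open DN (Dim dm)

variable [Dim]

open Set DN DZ DZH
open scoped RealInnerProductSpace

theorem sMIN : SMIN := by
  intro hlb hpos hdan hi ρ m lg b ν h0 ρ0 ρ1 yw up dn ib _ z w α hw hθ
  have f0 : FF m b (z, w) 0 = b z := DLH.ph0 yw (z, w)
  obtain ⟨η, a1, a2, a3⟩ := hdan m lg b yw (DLH.cb yw ib) z w α ρ ρ0 fun η hη hm => by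
    have b1 := hlb m lg b ν yw ib z w η hw (hη.trans ρ1)
    have b2 : FF m b (z, w) η ≤ FF m b (z, w) 0 := hm (by simpa using ρ0.le)
    have b3 := mul_le_mul_of_nonneg_left hθ (norm_nonneg η)
    by_contra hc
    nlinarith [not_lt.1 hc]
  obtain ⟨p1, p2⟩ := hpos m lg b ν yw ib z w η ρ hw a1 ρ1 a2
  have f2 := real_inner_le_norm η w
  rw [hw, mul_one] at f2
  obtain ⟨c, ζ, e, k1, k2, k3, -, k5, k6⟩ := DLH.split yw dn h0 (m.Z 1 (z, η)).1 z hw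
    (s := 1 + ⟪η, w⟫) (by linarith)
  rw [yw.had.xe] at k3 k5 k6
  have m1 : 2 * hi * ‖η‖ ^ 2 ≤ 2 * hi * ρ ^ 2 := by gcongr
  have m2 : (1 + ⟪η, w⟫) * (2 * hi * ‖η‖ ^ 2) ≤ 4 * hi * ρ ^ 2 :=
    (mul_le_mul (by linarith : _ ≤ (2 : ℝ)) m1 (by positivity) zero_le_two).trans_eq (by ring)
  refine ⟨c, ζ, k1, k2, k3.trans m2, k5.trans (mul_le_mul_of_nonneg_right m2 (by linarith)),
    fun hc => ?_, ?_⟩
  · obtain ⟨c1, c2⟩ := k6 up hc
    have c3 : ⟪η, w⟫ = 0 := by linarith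
    rw [real_inner_comm, c3] at c2
    have c4 : η = 0 := norm_eq_zero.1 (by nlinarith [norm_nonneg η])
    refine ⟨p2 c4, ?_⟩
    rw [← f0, ← c4]
    exact IsLeast.csInf_eq ⟨⟨η, by simpa using a1.le, rfl⟩, by
      rintro _ ⟨η', h', rfl⟩
      exact a2 h'⟩
  · rw [← e]
    have e2 : DL m lg (m.Z 1 (z, η)).1 z w =
        fderiv ℝ (fun y => lg (y, (m.Z 1 (z, η)).1)) z (m.R z w) + m.om z (m.R z w) η := by
      simp [DL, yw.had.xe]
    rw [e2]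
    exact a3

end Pool.Agent.MP_3ee8cb_gt.DL
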