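import Pool.Agent.MP_3ee8cb_gt.DL.Spec
import Pool.Agent.MP_3ee8cb_gt.DLH.Min

/-! A maximiser of the support function points almost in the given direction. -/

namespace Pool.Agent.MP_3ee8cb_gt.DL

open DN (Dim dm)

variable [Dim]

open Set Filter Topology Real DN DZ
open scoped RealInnerProductSpace

namespace RNEAR

variable {m : MF} {lg : V × V → V} {dX : V → V → ℝ} {P : Type} [TopologicalSpace P] {A : Fam P}

theorem cgm (h : BF m lg dX A) (ρ : ℝ) (q : V × V) : Continuous fun p => gm m ρ (A.β p) q := by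
  refine IsCompact.continuous_sInf (f := fun p => FF m (A.β p) q) (isCompact_closedBall 0 ρ) ?_
  have c1 := (DNWI.Z_c1 h.yw.ok 1).continuous
  have c2 : Continuous fun r : P × V => A.β r.1 (m.Z 1 (q.1, r.2)).1 :=
    h.cont.comp (f := fun r : P × V => (r.1, (m.Z 1 (q.1, r.2)).1)) (by fun_prop)
  refine c2.add (g := fun r : P × V => psi ⟪r.2, q.2⟫) ?_
  unfold psi
  fun_prop

theorem le_uu (h : BF m lg dX A) (ρ : ℝ) {p : P} {x : V} (hp : A.pr p = x) (q : V × V) :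
    gm m ρ (A.β p) q ≤ uu A m ρ x q.1 q.2 :=
  le_csSup ((h.cpt x).bddAbove_image (cgm h ρ q).continuousOn) ⟨p, hp, rfl⟩

theorem ex_max (h : BF m lg dX A) (g : BG lg A) (ρ : ℝ) (x z : V) {w : V} (hw : ‖w‖ = 1) :
    ∃ p, A.pr p = x ∧ uu A m ρ x z w = gm m ρ (A.β p) (z, w) := by
  obtain ⟨p₀, h₀, -⟩ := g.onto x z w hw
  obtain ⟨p, a1, a2⟩ := (h.cpt x).exists_sSup_image_eq ⟨p₀, h₀⟩ (cgm h ρ (z, w)).continuousOn
  exact ⟨p, a1, a2⟩

end RNEAR

open RNEAR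

theorem sNEAR : SNEAR := by
  intro _ m lg dX P _ A h g ρ R x z w h0 h1 hR hz hw
  obtain ⟨p, a1, a2⟩ := ex_max h g ρ x z hw
  obtain ⟨p₀, b1, b2⟩ := g.onto x z w hw
  have lo : -R ≤ uu A m ρ x z w := by
    have e1 : gm m ρ (A.β p₀) (z, A.ν p₀ z) = A.β p₀ z :=
      DLH.mn_eq h.yw (h.isb p₀) h0.le (by linarith) z
    have e2 := le_uu h ρ b1 (z, w)
    have e3 := hz (A.fl p₀) ((h.flp p₀).1.trans b1)
    rw [b2] at e1
    linarith [g.opp p₀ z]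
  have up : gm m ρ (A.β p) (z, w) ≤ A.β p z :=
    DLH.mn_up h.yw (DLH.cb h.yw (h.isb p)) h0.le (z, w)
  have hp := hz p a1
  have an : gm m ρ (A.β p) (z, w) ≤ A.β p z - ρ ^ 2 / 200 * ‖w - A.ν p z‖ ^ 2 / 2 +
      (ρ ^ 2 / 200) ^ 2 / 2 :=
    DLH.angle h.yw (h.isb p) (by positivity) (by nlinarith) (q := (z, w)) hw
  refine ⟨p, a1, ?_, a2, fun p' h' => a2 ▸ le_uu h ρ h' (z, w), le_uu h ρ a1,
    abs_le.2 ⟨lo, by linarith⟩⟩
  rw [norm_sub_rev]
  refine (pow_le_pow_iff_left₀ (norm_nonneg _) (by positivity) two_ne_zero).1 ?_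
  refine le_of_mul_le_mul_left ?_ (by positivity : 0 < ρ ^ 2 / 400)
  nlinarith

end Pool.Agent.MP_3ee8cb_gt.DL
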