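import Pool.Agent.MP_3ee8cb_gt.DL.Spec
import Pool.Agent.MP_3ee8cb_gt.DZ.RZERO
import Pool.Agent.MP_3ee8cb_gt.DZ.RFL

/-! The zero of the averaged field for one sided data. -/

namespace Pool.Agent.MP_3ee8cb_gt.DL

open Set Filter Topology MeasureTheory DN DZ DZZ
open scoped RealInnerProductSpace

namespace RZERO

theorem anti1 {f : ℝ → ℝ} {a b : ℝ} (hab : a ≤ b) (hf : ContinuousOn f (Icc a b))
    (h : ∀ t ∈ Icc a b, ∀ r, 0 < r → ∀ᶠ s in 𝓝[>] 0, f (t + s) ≤ f t + s * r) : f b ≤ f a := by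
  refine image_le_of_liminf_slope_right_le_deriv_boundary (B := fun _ => f a) (B' := fun _ => 0)
    hf le_rfl continuousOn_const (fun _ _ => hasDerivWithinAt_const _ _ _) (fun x hx r hr => ?_)
    (x := b) ⟨hab, le_rfl⟩
  have t : Tendsto (fun y => y - x) (𝓝[>] x) (𝓝[>] 0) :=
    tendsto_nhdsWithin_iff.2 ⟨((continuous_sub_right x).tendsto' _ _ (sub_self x)).mono_left
      nhdsWithin_le_nhds, eventually_mem_nhdsWithin.mono fun y hy => sub_pos.2 (mem_Ioi.1 hy)⟩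
  refine Eventually.frequently ?_
  filter_upwards [t.eventually (h x (Ico_subset_Icc_self hx) (r / 2) (half_pos hr)),
    self_mem_nhdsWithin] with y a1 a2
  have a3 := sub_pos.2 (mem_Ioi.1 a2)
  rw [add_sub_cancel] at a1
  rw [slope_def_field, div_lt_iff₀ a3]
  nlinarith [mul_pos a3 hr]

theorem anti2 {f : ℝ → ℝ} {a b : ℝ} (hab : a ≤ b) (hf : ContinuousOn f (Icc a b))
    (h : ∀ t ∈ Icc a b, ∀ r, 0 < r → ∀ᶠ s in 𝓝[>] 0, f t - s * r ≤ f (t + -s)) : f b ≤ f a := by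
  have key := anti1 (f := fun s => -f (-s)) (neg_le_neg hab)
    ((hf.comp continuous_neg.continuousOn fun s hs => ⟨by linarith [hs.2], by linarith [hs.1]⟩).neg)
    fun t ht r hr => (h (-t) ⟨by linarith [ht.2], by linarith [ht.1]⟩ r hr).mono fun s hs => by
      rw [neg_add]; linarith
  simpa using key

variable [Dim]

/-- One sided first order data at `p`. -/
def Tc (m : MF) (u : V × V → ℝ) (ε : ℝ) (p : V × V) : Prop :=
  ∀ α, ∃ (c : ℝ) (ζ : V), 1 ≤ c ∧ ‖ζ‖ ≤ ε ∧ Din m u p α ⟪c • p.2 + ζ, α⟫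

variable {m : MF} {lg : V × V → V} {μ : Measure V} {u u' : V × V → ℝ} {ε : ℝ}

theorem one (ho : m.OK) (hu : ContinuousOn u {p | ‖p.2‖ = 1}) {z : V × V} {O : ℝ → V ≃ₗᵢ[ℝ] V}
    (h1 : ∀ t, O t z.2 = (m.Z t z).2) (h2 : ∀ a t, HasDerivAt (fun s => O s a) (-m.w z t (O t a)) t)
    {a b : ℝ} (hab : a ≤ b) {w : V} (hw : ‖w‖ = 1)
    (h : ∀ t ∈ Icc a b, Tc m u ε ((m.Z t z).1, O t w)) :
    u ((m.Z b z).1, O b w) * ⟪w, z.2⟫ + b * (⟪w, z.2⟫ ^ 2 - ε * ‖z.2‖ ^ 2) ≤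
      u ((m.Z a z).1, O a w) * ⟪w, z.2⟫ + a * (⟪w, z.2⟫ ^ 2 - ε * ‖z.2‖ ^ 2) := by
  have d := fun t => HasDerivAt.prodMk
    ((ContinuousLinearMap.fst ℝ V V).hasFDerivAt.comp_hasDerivAt t (ho.ode z t)) (h2 w t)
  have n : ∀ t, ‖O t w‖ = 1 := fun t => ((O t).norm_map w).trans hw
  have c : ContinuousOn (fun t => u ((m.Z t z).1, O t w) * ⟪w, z.2⟫ +
      t * (⟪w, z.2⟫ ^ 2 - ε * ‖z.2‖ ^ 2)) (Icc a b) :=
    ((hu.comp (fun t _ => (d t).continuousAt.continuousWithinAt) fun t _ => n t).mul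
      continuousOn_const).add (continuousOn_id.mul continuousOn_const)
  have k : ∀ t ∈ Icc a b, ∀ e r : ℝ, 0 < r → ∃ D, ⟪w, z.2⟫ ^ 2 - ε * ‖z.2‖ ^ 2 ≤ D * ⟪w, z.2⟫ ∧
      ∀ᶠ s in 𝓝[>] 0, u ((m.Z t z).1, O t w) - s * (e * D + r / (|⟪w, z.2⟫| + 1)) ≤
        u ((m.Z (t + e * s) z).1, O (t + e * s) w) := fun t ht e r hr => by
    obtain ⟨c, ζ, a4, a5, a6⟩ := h t ht (e • O t z.2)
    have d0 := d t
    rw [show t = t + e * 0 by ring] at d0
    have d1 := d0.scomp (0 : ℝ) (((hasDerivAt_id (0 : ℝ)).const_mul e).const_add t)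
    rw [mul_zero, add_zero, mul_one] at d1
    have a7 := a6 _ _ (by simp) d1 (by rw [map_smul]; simp [MF.ver, MF.vf, MF.w])
      (by rw [map_smul]; exact congrArg _ ((ho.SR _ _).trans (h1 t).symm)) _
      (div_pos hr (by positivity : 0 < |⟪w, z.2⟫| + 1))
    rw [inner_smul_right, inner_add_left, real_inner_smul_left,
      LinearIsometryEquiv.inner_map_map] at a7
    refine ⟨_, ?_, a7⟩
    have b1 := abs_real_inner_le_norm ζ (O t z.2)
    have b2 := abs_real_inner_le_norm w z.2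
    rw [(O t).norm_map] at b1
    rw [hw, one_mul] at b2
    have b3 := mul_le_mul (b1.trans (mul_le_mul_of_nonneg_right a5 (norm_nonneg _))) b2
      (abs_nonneg _) (mul_nonneg ((norm_nonneg _).trans a5) (norm_nonneg _))
    rw [← abs_mul] at b3
    nlinarith [neg_le_of_abs_le b3, mul_nonneg (sub_nonneg.2 a4) (sq_nonneg ⟪w, z.2⟫)]
  have q : ∀ r : ℝ, 0 < r → r / (|⟪w, z.2⟫| + 1) * |⟪w, z.2⟫| ≤ r := fun r hr => by
    rw [div_mul_eq_mul_div, div_le_iff₀ (by positivity)]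
    linarith
  rcases le_total 0 ⟪w, z.2⟫ with p | p
  · refine anti2 hab c fun t ht r hr => ?_
    obtain ⟨D, a1, a2⟩ := k t ht (-1) r hr
    filter_upwards [a2, self_mem_nhdsWithin] with s hs s0
    have q1 := q r hr
    rw [neg_one_mul s] at hs
    rw [abs_of_nonneg p] at q1 hs
    nlinarith [mul_le_mul_of_nonneg_right hs p, mul_le_mul_of_nonneg_left a1 (mem_Ioi.1 s0).le,
      mul_le_mul_of_nonneg_left q1 (mem_Ioi.1 s0).le]
  · refine anti1 hab c fun t ht r hr => ?_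
    obtain ⟨D, a1, a2⟩ := k t ht 1 r hr
    filter_upwards [a2, self_mem_nhdsWithin] with s hs s0
    have q1 := q r hr
    rw [one_mul s] at hs
    rw [abs_of_nonpos p] at q1 hs
    nlinarith [mul_le_mul_of_nonpos_right hs p, mul_le_mul_of_nonneg_left a1 (mem_Ioi.1 s0).le,
      mul_le_mul_of_nonneg_left q1 (mem_Ioi.1 s0).le]

theorem mono (ho : m.OK) (hj : m.Jac) (hμ : Rot μ) (hu : ContinuousOn u {p | ‖p.2‖ = 1})
    (hε : 2 * dm * ε ≤ 1) (z : V × V)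
    (h : ∀ t ∈ Icc (0 : ℝ) 1, ∀ w, ‖w‖ = 1 → Tc m u ε ((m.Z t z).1, w)) :
    ⟪av μ u (m.Z 1 z).1, (m.Z 1 z).2⟫ + ‖z.2‖ ^ 2 / 2 ≤ ⟪av μ u z.1, z.2⟫ := by
  have := hμ.fin
  obtain ⟨O, -, h1, h2⟩ := hj.par z
  have i := hμ.int (f := fun w => ⟪w, z.2⟫ ^ 2) (by fun_prop)
  have i' := fun t : ℝ => hμ.int (f := fun w => t * (⟪w, z.2⟫ ^ 2 - ε * ‖z.2‖ ^ 2)) (by fun_prop)
  have e : ∀ t, ∫ w, (u ((m.Z t z).1, O t (‖w‖⁻¹ • w)) * ⟪‖w‖⁻¹ • w, z.2⟫ +
      t * (⟪‖w‖⁻¹ • w, z.2⟫ ^ 2 - ε * ‖z.2‖ ^ 2)) ∂μ =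
        ⟪av μ u (m.Z t z).1, (m.Z t z).2⟫ + t * ((1 - dm * ε) * ‖z.2‖ ^ 2) := fun t => by
    rw [integral_add (av_inner hμ hu _ _ _).1 (i' t),
      ← (av_inner hμ hu _ _ _).2, h1, integral_const_mul, integral_sub i (integrable_const _),
      hμ.sq, integral_const, hμ.mass, smul_eq_mul]
    ring
  have k := integral_mono_ae
    ((av_inner hμ hu _ _ _).1.add (i' 1)) ((av_inner hμ hu _ _ _).1.add (i' 0))
    (hμ.ne.mono fun w hw => one ho hu h1 h2 zero_le_one (nrm hw) fun t ht =>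
      h t ht _ (((O t).norm_map _).trans (nrm hw)))
  have k1 := e 0
  have k2 := e 1
  simp only [Pi.add_apply] at k
  rw [k1, k2, ho.zero] at k
  nlinarith [mul_nonneg (sub_nonneg.2 hε) (sq_nonneg ‖z.2‖)]

end RZERO

open RZERO

variable [Dim]

theorem sZERO : SZERO := by
  intro m₀ m lg dX ε s u C C₀ Q hM hX hY _ hε hs h
  have rotS := hM.rot'
  have c : ∀ x, ContinuousOn (fun q : V × V => u x q.1 q.2) {q | ‖q.2‖ = 1} := fun x q hq => by
    obtain ⟨K, hK⟩ := h.lipz x (‖q.1‖ + 1)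
    refine ((hK x (by simp [hX.self])).continuousOn q
      ⟨by linarith, hq⟩).mono_of_mem_nhdsWithin ?_
    exact inter_mem (nhdsWithin_le_nhds (continuous_fst.norm.continuousAt.eventually
      (Iic_mem_nhds (lt_add_one _)))) self_mem_nhdsWithin
  have tc : ∀ x z w, z ∈ C x → ‖w‖ = 1 → Tc m (fun q : V × V => u x q.1 q.2) ε (z, w) :=
    fun x z w hz hw α => by
      obtain ⟨c, ζ, a1, -, a2, -, -, a3⟩ := h.tou x z w α hz hw
      exact ⟨c, ζ, a1, a2, a3⟩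
  have n := fun x => h.nest x x (by rw [hX.self]; exact hs.le)
  have d0 : (0 : ℝ) ≤ dm := by positivity
  have ex : ∀ x, ∃ z, z ∈ C₀ x ∧ VV u x z = 0 := fun x => by
    obtain ⟨y, h1, h2⟩ := h.ctr x
    have ρ0 : 0 < (8 * dm + 1) * s := by positivity
    obtain ⟨z, k1, k2⟩ := zero_ex hY.ok hY.had (av_cont rotS (c x)) y ρ0 fun b hb => by
      have k1 := mono hY.ok hY.jac rotS (c x) hε (y, b) fun t ht w hw => tc x _ w (n x (h2 _ (by
        rw [DNWI.lg_ray hY.jac hY.had t (y, b), norm_smul, hb, Real.norm_of_nonneg ht.1]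
        exact mul_le_of_le_one_left ρ0.le ht.2))) hw
      have k2 := real_inner_le_norm (av mS (fun q : V × V => u x q.1 q.2) y) b
      have k3 := mul_le_mul_of_nonneg_right (av_le (y := y) (k := 0) (δ := 2 * s) rotS (c x)
        (by simpa using h1)) ρ0.le
      simp only [hb] at k1 k2
      rw [real_inner_comm]
      nlinarith [mul_pos ρ0 hs, mul_nonneg (mul_nonneg d0 hs.le) ρ0.le]
    exact ⟨z, h2 z k1, k2⟩
  choose f f1 f2 using ex
  have st : ∀ x x' z z', z ∈ C x → z' ∈ C x → VV u x z = 0 → VV u x' z' = 0 →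
      ‖lg (z, z')‖ ≤ 2 * dm * dX x x' := fun x x' z z' a1 a2 a3 a4 => by
    have k1 := mono hY.ok hY.jac rotS (c x) hε (z, lg (z, z')) fun t ht w hw =>
      tc x _ w (h.cvx x (z, lg (z, z')) a1 ((hY.had.ex z z').symm ▸ a2) t ht) hw
    have k2 := av_sub rotS (c x) (c x') (y := z') (y' := z') fun w hw => h.lipx x x' z' w hw
    have k3 := neg_le_of_abs_le (abs_real_inner_le_norm
      (av mS (fun q : V × V => u x q.1 q.2) z') (m.Z 1 (z, lg (z, z'))).2)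
    have a5 : av mS (fun q : V × V => u x q.1 q.2) z = 0 := a3
    have a6 : av mS (fun q : V × V => u x' q.1 q.2) z' = 0 := a4
    rw [hY.had.ex, a5, inner_zero_left] at k1
    rw [a6, sub_zero] at k2
    rw [hY.jac.norm] at k3
    simp only at k1 k3
    have k4 := (norm_nonneg _).trans k2
    refine not_lt.1 fun k5 => ?_
    have k6 : 0 < ‖lg (z, z')‖ := by linarith
    nlinarith [mul_pos k6 (sub_pos.2 k5), mul_le_mul_of_nonneg_right k2 k6.le]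
  refine ⟨f, f1, f2, fun x z a1 a2 => ?_, fun x x' k =>
    st x x' _ _ (n x (f1 x)) (h.nest x x' k (f1 x')) (f2 x) (f2 x')⟩
  have := st x x _ _ a1 (n x (f1 x)) a2 (f2 x)
  rw [hX.self, mul_zero, norm_le_zero_iff, ← DNWI.lg_self hY.ok hY.jac hY.had z] at this
  rw [← hY.had.ex z (f x), this, hY.had.ex]

theorem sFL : SFL := by
  intro m₀ m lg dX ε s u C C₀ Q _ xw yw _ _ hs _ f z
  refine locLip yw.ok yw.jac yw.had fun x => ⟨2 * dm * (2 * ‖m₀.S x‖), ?_⟩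
  have t : ∀ᶠ q : V × V in 𝓝 (x, x), 2 * ‖m₀.S x‖ * ‖q.2 - q.1‖ ≤ s :=
    (Continuous.tendsto' (y := 0) (by fun_prop) _ (by simp)).eventually_le_const hs
  filter_upwards [t, xw.upp x 1 one_pos] with q h1 h2
  have h3 : dX q.1 q.2 ≤ 2 * ‖m₀.S x‖ * ‖q.2 - q.1‖ := by
    linarith [(m₀.S x).le_opNorm (q.2 - q.1)]
  rw [mul_assoc]
  exact (z.lip _ _ (h3.trans h1)).trans (mul_le_mul_of_nonneg_left h3 (by positivity))

end Pool.Agent.MP_3ee8cb_gt.DL
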