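import Pool.Agent.MP_3ee8cb_gt.DL.Top
import Pool.Agent.MP_3ee8cb_gt.DL.RDAN
import Pool.Agent.MP_3ee8cb_gt.DL.REND1
import Pool.Agent.MP_3ee8cb_gt.DL.REQV67
import Pool.Agent.MP_3ee8cb_gt.DL.RJA
import Pool.Agent.MP_3ee8cb_gt.DL.RJB
import Pool.Agent.MP_3ee8cb_gt.DL.RLB
import Pool.Agent.MP_3ee8cb_gt.DL.RLZ
import Pool.Agent.MP_3ee8cb_gt.DL.RMIN
import Pool.Agent.MP_3ee8cb_gt.DL.RNEAR
import Pool.Agent.MP_3ee8cb_gt.DL.RSUP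
import Pool.Agent.MP_3ee8cb_gt.DL.RZERO
import Pool.Agent.MP_3ee8cb_gt.DLS.Top
import Pool.Agent.MP_3ee8cb_gt.DZ.All

/-! Local rigidity in the uniform topology. -/

namespace Pool.Agent.MP_3ee8cb_gt.DL

open DN (Dim dm)

variable [Dim]

open DN

theorem core (hi : ℝ) (h : 1 ≤ hi) : ∃ r, 0 < r ∧ DLS.Core hi r :=
  core_of sJAC sFRM DNFL.had sACT DZ.sMS DZ.sB1 DZ.sBG DZ.xw DZ.sASY DZ.sBC DZ.sEXA DZ.sMOV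
    DZ.sLIP DZ.sGR DZ.sBF DZ.sONTO DZ.RVOL.veq DZ.RVOL.area DZ.sVOL DZ.sEND2 sLB sPOS sDAN sMIN
    sLZ sNEAR sSUP sZERO sFL sJA sJB sEND1 eqv67 hi (zero_le_one.trans h)

end Pool.Agent.MP_3ee8cb_gt.DL
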