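import Pool.Agent.MP_3ee8cb_gt.DL.RNEAR

/-! The support function of a family. -/

namespace Pool.Agent.MP_3ee8cb_gt.DL

open DN (Dim dm)

variable [Dim]

open Set Filter Topology Real DN DZ RNEAR
open scoped RealInnerProductSpace

namespace RSUP

variable {m : MF} {lg : V × V → V} {dX : V → V → ℝ} {P : Type} [TopologicalSpace P] {A : Fam P}

theorem shift (h : BF m lg dX A) {ρ : ℝ} (h0 : 0 ≤ ρ) {p p' : P} {k : ℝ}
    (e : ∀ z, A.β p' z = A.β p z + k) (q : V × V) : gm m ρ (A.β p) q + k ≤ gm m ρ (A.β p') q := by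
  obtain ⟨η, a1, a2, -⟩ := DLH.mn_ex h.yw (DLH.cb h.yw (h.isb p')) h0 q
  have a3 := DLH.mn_le h.yw (DLH.cb h.yw (h.isb p)) q a1
  change DLH.mn m ρ (A.β p) q + k ≤ DLH.mn m ρ (A.β p') q
  rw [a2]
  rw [DLH.Ph] at a3 ⊢
  rw [e]
  linarith

theorem half (h : BF m lg dX A) (g : BG lg A) {ρ : ℝ} (h0 : 0 ≤ ρ) (x x' z : V) {w : V}
    (hw : ‖w‖ = 1) : uu A m ρ x z w - uu A m ρ x' z w ≤ dX x x' ∧
      uu A m ρ x z w - uu A m ρ x' z w ≤ dX x' x := by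
  obtain ⟨p, a1, a2⟩ := ex_max h g ρ x z hw
  obtain ⟨p', k, b1, b2⟩ := h.mov p x'
  have c1 := shift h h0 b2 (z, w)
  have c2 : _ ≤ uu A m ρ x' z w := le_uu h ρ b1 (z, w)
  have c3 := h.lip p p' k b2
  have c4 := h.lip p' p (-k) fun z => by rw [b2]; ring
  rw [a1, b1] at c3 c4
  exact ⟨by linarith [(abs_le.1 c3).1], by linarith [(abs_le.1 c4).2]⟩

end RSUP

open RSUP

theorem sSUP : SSUP := by
  intro hL hZ hN m lg dX P _ A h g ε ρ s e0 e1 h0 h1 s0 hs hS hM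
  have d0 : (0 : ℝ) ≤ dm := Nat.cast_nonneg _
  refine ⟨fun x x' z w hw => abs_sub_le_iff.2 ⟨(half h g h0.le x x' z hw).1,
    (half h g h0.le x' x z hw).2⟩, fun x₀ R => ?_, fun x z w α hz hw => ?_,
    fun x z h0 h1 t ht p hp => (h.b1 p).sub z _ (h0 p hp) (h1 p hp) t ht,
    fun x x' hx z hz p hp => ?_, fun x => ?_⟩
  · obtain ⟨K, hK⟩ := hZ m lg dX P A h g ρ R h0
    exact ⟨K, fun x _ => hK x⟩
  · obtain ⟨p, a1, a2, a3, a4, a5, -⟩ := hN hL m lg dX P A h g ρ _ x z w h0 h1 hs hz hw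
    obtain ⟨c, ζ, b1, b2, b3, b4, b5, b6⟩ := hM p z w α hw a2
    refine ⟨c, ζ, b1, b2, b3.trans (by nlinarith), b4, fun e => ⟨p, a1, (b5 e).1, fun p' h' =>
      (a4 p' h').trans_eq (b5 e).2⟩, fun γ ξ g0 g1 g2 g3 η hη => ?_⟩
    filter_upwards [b6 γ ξ g0 g1 g2 g3 η hη] with t ht
    exact (a3 ▸ ht :).trans (a5 (γ t))
  · obtain ⟨p', c, hp', hc⟩ := h.mov p x'
    have h1 := h.lip p p' c hc
    rw [hp, hp'] at h1
    have h2 := hz p' hp'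
    rw [hc] at h2
    linarith [(abs_le.1 (h1.trans hx)).1]
  · obtain ⟨y, hy⟩ := hS x
    refine ⟨y, fun w hw => ?_, fun z hz p hp => ?_⟩
    · obtain ⟨p, -, -, -, -, -, a⟩ := hN hL m lg dX P A h g ρ s x y w h0 h1 (by nlinarith)
        (fun p hp => (abs_le.1 (hy p hp)).2) hw
      linarith
    · have h1 := (h.isb p).lip z y
      rw [DNWI.lg_symm h.yw.jac h.yw.had] at h1
      linarith [(abs_le.1 (hy p hp)).2]

end Pool.Agent.MP_3ee8cb_gt.DL
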