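import Pool.Agent.MP_3ee8cb_gt.DZ.Spec

/-! Local rigidity in the uniform topology: definitions and statements of the blocks. -/

namespace Pool.Agent.MP_3ee8cb_gt.DL

open DN (Dim dm)

variable [Dim]

open Set Filter Topology MeasureTheory Real DN DZ
open CR (Met UT Riem Deck RP dd ng tm FdP MinP bus)
open LV (QP CJ Fund vol)
open scoped RealInnerProductSpace

noncomputable section

/-! ### The inner minimum -/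

/-- The profile. -/
def psi (s : ℝ) : ℝ := s + s ^ 2 / 2

/-- The function that is minimised. -/
def FF (m : MF) (b : V → ℝ) (q : V × V) (η : V) : ℝ := b (m.Z 1 (q.1, η)).1 + psi ⟪η, q.2⟫

/-- The inner minimum. -/
def gm (m : MF) (ρ : ℝ) (b : V → ℝ) (q : V × V) : ℝ :=
  sInf (FF m b q '' Metric.closedBall 0 ρ)

/-- The lower right derivative of `u` at `q` in the horizontal direction `α` is at least `-d`. -/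
def Din (m : MF) (u : V × V → ℝ) (q : V × V) (α : V) (d : ℝ) : Prop :=
  ∀ (γ : ℝ → V × V) (ξ : V × V), γ 0 = q → HasDerivAt γ ξ 0 → m.ver q ξ = 0 → m.hor q ξ = α →
    ∀ η, 0 < η → ∀ᶠ s in 𝓝[>] 0, u q - s * (d + η) ≤ u (γ s)

/-- The quadratic lower bound. -/
def SLB : Prop := ∀ m lg b ν, YW m lg → IsB m lg b ν → ∀ z w η : V, ‖w‖ = 1 → ‖η‖ ≤ 1 / 20 →
  b z + ‖η‖ ^ 2 / 4 - 2 * ‖η‖ * ‖ν z - w‖ ≤ FF m b (z, w) η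

/-- At an interior minimum the profile has slope at least one. -/
def SPOS : Prop := ∀ m lg b ν, YW m lg → IsB m lg b ν → ∀ (z w η : V) (ρ : ℝ), ‖w‖ = 1 →
  ‖η‖ < ρ → ρ ≤ 1 / 20 → IsMinOn (FF m b (z, w)) (Metric.closedBall 0 ρ) η →
    0 ≤ ⟪η, w⟫ ∧ (η = 0 → ν z = w)

/-- One sided derivative of the inner minimum when all minimisers are interior. -/
def SDAN : Prop := ∀ m lg (b : V → ℝ), YW m lg → Continuous b → ∀ (z w α : V) (ρ : ℝ), 0 < ρ →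
  (∀ η, ‖η‖ ≤ ρ → IsMinOn (FF m b (z, w)) (Metric.closedBall 0 ρ) η → ‖η‖ < ρ) →
    ∃ η, ‖η‖ < ρ ∧ IsMinOn (FF m b (z, w)) (Metric.closedBall 0 ρ) η ∧
      Din m (gm m ρ b) (z, w) α
        ⟪-((1 + ⟪η, w⟫) • (fderiv ℝ (fun y => lg (y, (m.Z 1 (z, η)).1)) z (m.R z w) +
          m.om z (m.R z w) η)), α⟫

/-- First order data of the inner minimum. -/
def MM (m : MF) (k ρ : ℝ) (b : V → ℝ) (ν : V → V) : Prop := ∀ z w α : V, ‖w‖ = 1 →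
  ‖ν z - w‖ ≤ ρ / 10 → ∃ (c : ℝ) (ζ : V), 1 ≤ c ∧ ⟪ζ, w⟫ = 0 ∧ ‖ζ‖ ≤ k ∧
    ‖ζ‖ ^ 2 ≤ k * (c - 1) ∧ (c = 1 → ν z = w ∧ gm m ρ b (z, w) = b z) ∧
    Din m (gm m ρ b) (z, w) α ⟪c • w + ζ, α⟫

def SMIN : Prop := SLB → SPOS → SDAN → ∀ (hi ρ : ℝ) m lg b ν, 0 ≤ hi → 0 < ρ → ρ ≤ 1 / 20 →
  YW m lg → m.Up 1 → m.Dn hi → IsB m lg b ν → B1 m lg b ν → MM m (4 * hi * ρ ^ 2) ρ b ν

/-! ### The support function -/

/-- The support function. -/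
def uu {P : Type} (A : Fam P) (m : MF) (ρ : ℝ) (x z w : V) : ℝ :=
  sSup ((fun p => gm m ρ (A.β p) (z, w)) '' {p | A.pr p = x})

/-- The maximum is attained in the direction `w`. -/
def TT {P : Type} (A : Fam P) (m : MF) (ρ : ℝ) (x z w : V) : Prop :=
  ∃ p, A.pr p = x ∧ A.ν p z = w ∧ ∀ p', A.pr p' = x → gm m ρ (A.β p') (z, w) ≤ A.β p z

/-- All functions of a fibre are small at one point. -/
def Sm {P : Type} (A : Fam P) (s : ℝ) : Prop := ∀ x, ∃ y, ∀ p, A.pr p = x → |A.β p y| ≤ s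

/-- An abstract support function at scale `s`. -/
structure Sup (m : MF) (lg : V × V → V) (dX : V → V → ℝ) (ε s : ℝ) (u : V → V → V → ℝ)
    (C C₀ : V → Set V) (Q : V → V → V → Prop) : Prop where
  lipx : ∀ x x' z w, ‖w‖ = 1 → |u x z w - u x' z w| ≤ dX x x'
  lipz : ∀ (x₀ : V) (R : ℝ), ∃ K, ∀ x, dX x₀ x ≤ 1 →
    LipschitzOnWith K (fun q : V × V => u x q.1 q.2) {q | ‖q.1‖ ≤ R ∧ ‖q.2‖ = 1}
  tou : ∀ x z w α, z ∈ C x → ‖w‖ = 1 → ∃ (c : ℝ) (ζ : V), 1 ≤ c ∧ ⟪ζ, w⟫ = 0 ∧ ‖ζ‖ ≤ ε ∧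
    ‖ζ‖ ^ 2 ≤ ε ^ 2 * (c - 1) ∧ (c = 1 → Q x z w) ∧
    Din m (fun q => u x q.1 q.2) (z, w) α ⟪c • w + ζ, α⟫
  cvx : ∀ x (z : V × V), z.1 ∈ C x → (m.Z 1 z).1 ∈ C x → ∀ t ∈ Icc (0 : ℝ) 1, (m.Z t z).1 ∈ C x
  nest : ∀ x x', dX x x' ≤ s → C₀ x' ⊆ C x
  ctr : ∀ x, ∃ y, (∀ w, ‖w‖ = 1 → |u x y w| ≤ 2 * s) ∧
    ∀ z, ‖lg (y, z)‖ ≤ (8 * dm + 1) * s → z ∈ C₀ x

/-- The support function is Lipschitz in the point and the direction. -/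
def SLZ : Prop := OnB fun m lg _ _ _ A => BG lg A → ∀ ρ R : ℝ, 0 < ρ → ∃ K, ∀ x,
  LipschitzOnWith K (fun q : V × V => uu A m ρ x q.1 q.2) {q | ‖q.1‖ ≤ R ∧ ‖q.2‖ = 1}

/-- A maximiser exists and points almost in the direction `w`. -/
def SNEAR : Prop := SLB → OnB fun m lg _ _ _ A => BG lg A → ∀ (ρ R : ℝ) (x z w : V), 0 < ρ →
  ρ ≤ 1 / 20 → R ≤ ρ ^ 4 / 160000 → z ∈ A.C R x → ‖w‖ = 1 → ∃ p, A.pr p = x ∧
    ‖A.ν p z - w‖ ≤ ρ / 10 ∧ uu A m ρ x z w = gm m ρ (A.β p) (z, w) ∧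
    (∀ p', A.pr p' = x → gm m ρ (A.β p') (z, w) ≤ gm m ρ (A.β p) (z, w)) ∧
    (∀ q : V × V, gm m ρ (A.β p) q ≤ uu A m ρ x q.1 q.2) ∧ |uu A m ρ x z w| ≤ R

def SSUP : Prop := SLB → SLZ → SNEAR → OnB fun m lg dX _ _ A => BG lg A → ∀ ε ρ s : ℝ,
  0 ≤ ε → ε ≤ 1 → 0 < ρ → ρ ≤ 1 / 20 → 0 < s → (8 * dm + 3) * s ≤ ρ ^ 4 / 160000 → Sm A s →
  (∀ p, MM m (ε ^ 2) ρ (A.β p) (A.ν p)) → Sup m lg dX ε s (uu A m ρ)
    (A.C ((8 * dm + 3) * s)) (A.C ((8 * dm + 2) * s)) (TT A m ρ)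

/-! ### The zero of the averaged field -/

structure Zr (lg : V × V → V) (dX : V → V → ℝ) (s : ℝ) (u : V → V → V → ℝ) (C C₀ : V → Set V)
    (f : V → V) : Prop where
  mem : ∀ x, f x ∈ C₀ x
  zero : ∀ x, VV u x (f x) = 0
  uniq : ∀ x z, z ∈ C x → VV u x z = 0 → z = f x
  lip : ∀ x x', dX x x' ≤ s → ‖lg (f x, f x')‖ ≤ 2 * dm * dX x x'

/-- A statement about a support function. -/
def OnS (R : MF → MF → (V × V → V) → (V → V → ℝ) → ℝ → ℝ → (V → V → V → ℝ) → (V → Set V) →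
    (V → Set V) → (V → V → V → Prop) → Prop) : Prop :=
  ∀ m₀ m lg dX (ε s : ℝ) u C C₀ Q, MS → XW m₀ dX → YW m lg → 0 ≤ ε → 2 * dm * ε ≤ 1 → 0 < s →
    Sup m lg dX ε s u C C₀ Q → R m₀ m lg dX ε s u C C₀ Q

def SZERO : Prop := OnS fun _ _ lg dX _ s u C C₀ _ => ∃ f, Zr lg dX s u C C₀ f

def SFL : Prop := OnS fun _ _ lg dX _ s u C C₀ _ => ∀ f, Zr lg dX s u C C₀ f → LocallyLipschitz f

/-! ### The Jacobian -/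

/-- First order data at a point. -/
def Fo (ε : ℝ) (L : V →L[ℝ] V) (Q : V → Prop) : Prop := ∃ l : V → V →L[ℝ] ℝ,
  (∀ T : V →L[ℝ] V, Integrable (fun w => l w (T (un w))) mS ∧ ∫ w, l w (T (un w)) ∂mS = 0) ∧
  ∀ᵐ w ∂mS, ∀ e, ∃ (c : ℝ) (ζ : V), 1 ≤ c ∧ ⟪ζ, un w⟫ = 0 ∧ ‖ζ‖ ^ 2 ≤ ε ^ 2 * (c - 1) ∧
    (c = 1 → Q (un w)) ∧ l w e ≤ ‖e‖ - ⟪c • un w + ζ, L e⟫

def SJA : Prop := OnS fun m₀ m lg dX ε s u C C₀ Q => ∀ f, Zr lg dX s u C C₀ f →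
  LocallyLipschitz f → ∀ᵐ x, DifferentiableAt ℝ f x ∧ Fo ε (LL m₀ m f x) (Q x (f x))

def SJB : Prop := ∀ (ε : ℝ) (L : V →L[ℝ] V) (Q : V → Prop), MS → 0 ≤ ε → 2 * dm * ε ≤ 1 →
  Fo ε L Q → |L.det| ≤ 1 ∧ (1 ≤ |L.det| → ∀ᵐ w ∂mS, Q (un w))

def SEND1 : Prop := SLB → OnB fun m lg _ _ _ A => MS → BG lg A → ∀ (ρ : ℝ) x z, 0 < ρ →
  ρ ≤ 1 / 20 → (∀ᵐ w ∂mS, TT A m ρ x z (un w)) → ∀ p, A.pr p = x → A.ft p = z

/-! ### The world of metrics -/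

def SEQV : Prop := On2 fun g h _ C' Γ Λ _ _ _ _ _ Ψ ρ F => ∀ m lg ν O (r s R R₀ : ℝ) f, MS →
  NB h C' Ψ m lg ν → Act m Λ O → R₀ ≤ R →
  Zr lg (dd g) s (uu (fam Ψ F ν) m r) ((fam Ψ F ν).C R) ((fam Ψ F ν).C R₀) f →
    ∀ (γ : Γ) x, f (γ • x) = ρ γ • f x

/-- Rigidity when the Busemann functions of each fibre are small at one point. -/
def Core (hi s : ℝ) : Prop := On2 fun g h _ C' _ _ _ _ _ _ _ Ψ ρ F => Pin h C' 1 hi →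
  (∀ p, F (ng p) = ng (F p)) →
  (∀ x, ∃ y, ∀ p : UT g, p.1.1 = x → |bus h Ψ (F p) y| ≤ s) → Iso g h ρ

end

end Pool.Agent.MP_3ee8cb_gt.DL
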