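import Pool.Agent.MP_3ee8cb_gt.DL.Spec
import Pool.Agent.MP_3ee8cb_gt.DN.Top

/-! Local rigidity in the uniform topology from the blocks. -/

namespace Pool.Agent.MP_3ee8cb_gt.DL

open DN (Dim dm)

variable [Dim]

open Set Filter Topology MeasureTheory Real DN
open CR (Met UT dd ng)
open scoped RealInnerProductSpace

theorem consts {hi : ℝ} (h0 : 0 ≤ hi) : ∃ ε ρ s : ℝ, 0 ≤ ε ∧ ε ≤ 1 ∧ 2 * dm * ε ≤ 1 ∧ 0 < ρ ∧
    ρ ≤ 1 / 20 ∧ 0 < s ∧ (8 * dm + 3) * s ≤ ρ ^ 4 / 160000 ∧ 4 * hi * ρ ^ 2 = ε ^ 2 := by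
  have n0 : (0 : ℝ) ≤ dm := Nat.cast_nonneg _
  have q0 := sqrt_nonneg hi
  have p0 : 0 < 20 + (2 * dm + 1) * (2 * √hi) := by positivity
  obtain ⟨ρ, r0, r1⟩ : ∃ ρ : ℝ, 0 < ρ ∧ ρ * (20 + (2 * dm + 1) * (2 * √hi)) = 1 :=
    ⟨_, inv_pos.2 p0, inv_mul_cancel₀ p0.ne'⟩
  have a0 : 0 ≤ ρ * √hi := by positivity
  have a1 : 0 ≤ dm * (ρ * √hi) := by positivity
  have p1 : (0 : ℝ) < 8 * dm + 3 := by positivity
  refine ⟨2 * √hi * ρ, ρ, ρ ^ 4 / 160000 / (8 * dm + 3), by positivity, by nlinarith,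
    by nlinarith, r0, by nlinarith, by positivity, (mul_div_cancel₀ _ p1.ne').le, ?_⟩
  rw [mul_pow, mul_pow, sq_sqrt h0]
  ring

theorem core_of (jac : SJAC) (frm : SFRM) (had : SHAD) (act : SACT) (ms : DZ.SMS) (b1 : DZ.SB1)
    (bg : DZ.SBG) (xw : DZ.SXW) (asy : DZ.SASY) (bc : DZ.SBC) (exa : DZ.SEXA) (mov : DZ.SMOV)
    (lip : DZ.SLIP) (gr : DZ.SGR) (bf : DZ.SBF) (onto : DZ.SONTO) (veq : DZ.SVEQ)
    (area : DZ.SAREA) (vol : DZ.SVOL) (end2 : DZ.SEND2) (lb : SLB) (pos : SPOS) (dan : SDAN)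
    (mn : SMIN) (lz : SLZ) (near : SNEAR) (sup : SSUP) (zero : SZERO) (fl : SFL) (ja : SJA)
    (jb : SJB) (end1 : SEND1) (eqv : SEQV) (hi : ℝ) (h0 : 0 ≤ hi) : ∃ s, 0 < s ∧ Core hi s := by
  obtain ⟨ε, r, s, ε0, ε1, ε2, r0, r1, s0, s1, e⟩ := consts h0
  refine ⟨s, s0, ?_⟩
  intro g h C C' Γ Λ _ _ _ _ Φ Ψ ρ F qg qh cg ch dΓ dΛ cj kh fp sm
  have kh' : TB.CurvLe h 1 := ⟨C', ch, fun x u v => by simpa using (kh x u v).2⟩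
  obtain ⟨m₀, o₀, l₀⟩ := frm g C Γ Φ qg cg
  obtain ⟨m, o, l⟩ := frm h C' Λ Ψ qh ch
  have j := jac m o
  obtain ⟨O, aO⟩ := act h C' Λ Ψ qh ch m o l dΛ
  obtain ⟨lg, hl, hd⟩ := had h C' Λ Ψ qh ch m 1 o j l one_pos kh'
  have cs : ∀ u v : V, 0 ≤ ‖u‖ ^ 2 * ‖v‖ ^ 2 - ⟪u, v⟫ ^ 2 := fun u v => by
    have := real_inner_mul_inner_self_le u v
    rw [real_inner_self_eq_norm_sq, real_inner_self_eq_norm_sq] at this
    nlinarith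
  have u1 : m.Up 1 := fun y u v => by
    have := (kh y (m.R y u) (m.R y v)).2
    rw [(l.sec o y u v).1, ← (l.sec o y u v).2]
    linarith
  have d1 : m.Dn hi := fun y u v => by
    have := (kh y (m.R y u) (m.R y v)).1
    rw [(l.sec o y u v).1, ← (l.sec o y u v).2]
    linarith
  have u0 : m.Up 0 := fun y u v =>
    le_trans (mul_le_mul_of_nonneg_right zero_le_one (cs u v)) (u1 y u v)
  have yw : DZ.YW m lg := ⟨o, j, hl, u0⟩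
  have as := asy h C' Λ Ψ qh ch kh'
  obtain ⟨ν, hν⟩ := exa h C' Λ Ψ qh ch m lg kh' as yw l hd
  have nb : DZ.NB h C' Ψ m lg ν := ⟨kh', yw, l, hd, as, bc h C' Λ Ψ qh ch kh',
    fun w => (hν w).1, fun w => b1 m lg _ _ yw (hν w).1, fun w => (hν w).2⟩
  have B := bf mov lip gr g h C C' Γ Λ Φ Ψ ρ F qg qh cg ch dΓ dΛ cj m lg ν nb fp
  have G := bg m lg _ _ _ B
  have X := xw g C Γ Φ qg cg m₀ o₀ l₀
  have S := sup lb lz near m lg _ _ _ B G ε r s ε0 ε1 r0 r1 s0 s1 sm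
    fun p => e ▸ mn lb pos dan hi r m lg _ _ h0 r0 r1 yw u1 d1 (B.isb p) (B.b1 p)
  obtain ⟨f, Z⟩ := zero m₀ m lg _ _ _ _ _ _ _ ms X yw ε0 ε2 s0 S
  have L := fl m₀ m lg _ _ _ _ _ _ _ ms X yw ε0 ε2 s0 S f Z
  have J := ja m₀ m lg _ _ _ _ _ _ _ ms X yw ε0 ε2 s0 S f Z L
  have E := eqv g h C C' Γ Λ Φ Ψ ρ F qg qh cg ch dΓ dΛ cj m lg ν O _ _ _ _ f ms nb aO
    (by linarith) Z
  have Su := onto g h C C' Γ Λ Φ Ψ ρ F qg qh cg ch dΓ dΛ cj m lg ν f _ nb L.continuous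
    fun p => G.near p _ _ (Z.mem _)
  have J' := J.mono fun x hx => jb _ _ _ ms ε0 ε2 hx.2
  have W := vol veq area g h C C' Γ Λ Φ Ψ ρ F qg qh cg ch dΓ dΛ cj m₀ m f kh' o₀ o l₀ l L Su E
    (J'.mono fun x hx => hx.1)
  refine end2 g h C C' Γ Λ Φ Ψ ρ F qg qh cg ch dΓ dΛ cj m₀ m lg ν f o₀ (jac m₀ o₀) l₀ nb
    L.continuous ?_
  filter_upwards [J, J', W] with x h1 h2 h3
  exact ⟨h1.1, end1 lb m lg _ _ _ B ms G r x (f x) r0 r1 (h2.2 h3)⟩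

end Pool.Agent.MP_3ee8cb_gt.DL
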